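import Mathlib
import Pool.Agent.H.MP_ec11a7_an.A

set_option autoImplicit false

namespace Pool.Agent.Results.MP_ec11a7_an.Gap

open Cardinal Pool.Agent.H.MP_ec11a7_an

universe u

/-- one-sided opening -/
noncomputable def side {𝕜 : Type} [RCLike 𝕜] {E : Type u} [NormedAddCommGroup E] [NormedSpace 𝕜 E]
    (G H : Submodule 𝕜 E) : ℝ :=
  ⨆ x : {x : E // x ∈ G ∧ ‖x‖ = 1}, Metric.infDist (x : E) H

/-- density character -/
noncomputable def dens {E : Type u} [NormedAddCommGroup E] (G : Set E) : Cardinal.{u} :=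
  sInf {c | ∃ D : Set E, D ⊆ G ∧ G ⊆ closure D ∧ #D = c}

open Classical in
/-- linear dimension if finite, else density character -/
noncomputable def dim {𝕜 : Type} [RCLike 𝕜] {E : Type u} [NormedAddCommGroup E] [NormedSpace 𝕜 E]
    (G : Submodule 𝕜 E) : Cardinal.{u} :=
  if FiniteDimensional 𝕜 G then (Module.finrank 𝕜 G : Cardinal.{u}) else dens (G : Set E)

theorem le_side {𝕜 : Type} [RCLike 𝕜] {E : Type u} [NormedAddCommGroup E] [NormedSpace 𝕜 E]
    (G H : Submodule 𝕜 E) (x : E) (hx : x ∈ G) (h : ‖x‖ = 1) : Metric.infDist x H ≤ side G H :=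
  le_ciSup (f := fun x : {x : E // x ∈ G ∧ ‖x‖ = 1} => Metric.infDist (x : E) H) ⟨1, by
    rintro _ ⟨y, rfl⟩
    exact (Metric.infDist_le_dist_of_mem H.zero_mem).trans (by simp [y.2.2])⟩ ⟨x, hx, h⟩

theorem dens_le' {𝕜 : Type} [RCLike 𝕜] {E : Type u} [NormedAddCommGroup E] [NormedSpace 𝕜 E]
    (G H : Submodule 𝕜 E) (hH : H ≠ ⊥) (h : max (side G H) (side H G) < 0.51) :
    dens (G : Set E) ≤ dens (H : Set E) := by
  let := NormedSpace.restrictScalars ℝ 𝕜 E
  have : IsScalarTower ℝ 𝕜 E := IsScalarTower.restrictScalars ℝ 𝕜 E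
  obtain ⟨D, d1, d2, d3⟩ := csInf_mem (s := {c | ∃ D : Set E, D ⊆ H ∧ (H : Set E) ⊆ closure D ∧ #D = c})
    ⟨_, H, le_rfl, subset_closure, rfl⟩
  obtain ⟨D', e1, e2, e3⟩ := dens_le (G.restrictScalars ℝ) (H.restrictScalars ℝ)
    (by simpa using hH) h (fun x hx h1 => (le_side G H x hx h1).trans (le_max_left _ _))
    (fun x hx h1 => (le_side H G x hx h1).trans (le_max_right _ _)) D d1 d2
  have : dens (G : Set E) ≤ #D' := csInf_le' ⟨D', e1, e2, rfl⟩
  exact this.trans (e3.trans d3.le)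

theorem result : ∃ α : ℝ, 1 / 2 < α ∧ ∀ (𝕜 : Type) [RCLike 𝕜] (E : Type u) [NormedAddCommGroup E]
    [NormedSpace 𝕜 E] (G H : Submodule 𝕜 E), G ≠ ⊥ → H ≠ ⊥ →
    max (side G H) (side H G) < α → dim G = dim H := by
  refine ⟨0.51, by norm_num, fun 𝕜 _ E _ _ G H hG hH h => ?_⟩
  have a := fun (_ : FiniteDimensional 𝕜 H) =>
    fin_le G H ((le_max_left _ _).trans_lt (h.trans (by norm_num))) (le_side G H)
  have b := fun (_ : FiniteDimensional 𝕜 G) =>
    fin_le H G ((le_max_right _ _).trans_lt (h.trans (by norm_num))) (le_side H G)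
  unfold dim
  by_cases c : FiniteDimensional 𝕜 G
  · rw [if_pos c, if_pos (b c).1, le_antisymm (a (b c).1).2 (b c).2]
  · rw [if_neg c, if_neg fun e => c (a e).1]
    exact le_antisymm (dens_le' G H hH h) (dens_le' H G hG (by rwa [max_comm]))

end Pool.Agent.Results.MP_ec11a7_an.Gap
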